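import Pool.Agent.R90.Final

namespace Pool.Agent.Results.MP_c5227e_nt.NinetyOverPi

/-- `f(n) = C(2n,n) * sum_{k=0}^n C(n,k) C(n+2k,2k) C(2k,k) (-324)^(n-k)`, an integer. -/
def f (n : ℕ) : ℤ :=
  (Nat.choose (2 * n) n : ℤ) * ∑ k ∈ Finset.range (n + 1),
    (Nat.choose n k : ℤ) * (Nat.choose (n + 2 * k) (2 * k) : ℤ) * (Nat.choose (2 * k) k : ℤ) *
      (-324 : ℤ) ^ (n - k)

/-- The series `sum_{n >= 0} (357 n + 103) f(n) / 2160^n` converges (absolutely) and its sum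
is `90 / π`. -/
theorem result :
    HasSum (fun n : ℕ => (357 * (n : ℝ) + 103) / 2160 ^ n * (f n : ℝ)) (90 / Real.pi) := by
  refine Pool.Agent.R90.main.congr_fun ?_
  intro n
  unfold f
  push_cast
  ring

end Pool.Agent.Results.MP_c5227e_nt.NinetyOverPi
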