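import Pool.Agent.SC105.Main

namespace Pool.Agent.Results.MP_c5227e_nt.SunCong105A

/-- Q1(a) for every prime `p > 5`: with
`f(n) = C(2n,n) * sum_{k=0}^n C(n,k) C(n+2k,2k) C(2k,k) (-324)^(n-k)`,
`sum_{n<p} (357 n + 103) f(n) / 2160^n` is congruent to `p (-1/p) (54 + 49 (p/15))` modulo `p^2`
(stated after multiplication by `2160^(p-1)`). -/
theorem result :
    ∀ f : ℕ → ℤ,
      (∀ n : ℕ, f n = (Nat.choose (2 * n) n : ℤ) *
        ∑ k ∈ Finset.range (n + 1), (Nat.choose n k : ℤ) * (Nat.choose (n + 2 * k) (2 * k) : ℤ) *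
          (Nat.choose (2 * k) k : ℤ) * (-324 : ℤ) ^ (n - k)) →
      ∀ p : ℕ, p.Prime → 5 < p →
        (∑ n ∈ Finset.range p, (357 * (n : ℤ) + 103) * f n * (2160 : ℤ) ^ (p - 1 - n)) ≡
            (2160 : ℤ) ^ (p - 1) *
              ((p : ℤ) * jacobiSym (-1) p * (54 + 49 * jacobiSym (p : ℤ) 15))
            [ZMOD (p : ℤ) ^ 2] := by
  intro f hf p hp h5
  haveI : Fact p.Prime := ⟨hp⟩
  have h := Pool.Agent.SC105.congr_int (p := p) h5
  have e : (∑ n ∈ Finset.range p, (357 * (n : ℤ) + 103) * f n * (2160 : ℤ) ^ (p - 1 - n)) =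
      ∑ n ∈ Finset.range p, (357 * (n : ℤ) + 103) * (((2 * n).choose n : ℤ) *
        Pool.Agent.SC105.g n) * (2160 : ℤ) ^ (p - 1 - n) := by
    apply Finset.sum_congr rfl
    intro n _
    rw [hf n]
    rfl
  rw [e]
  exact h

end Pool.Agent.Results.MP_c5227e_nt.SunCong105A
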